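import Pool.Agent.Y882.JR.Core5
import Pool.Agent.Y882.SI.Few
import Pool.Agent.Y882.PX.MainX

/-! The linear sieve for the values of a polynomial in short intervals: few exceptions. -/

set_option autoImplicit false

namespace Pool.Agent.Y882.JR

open Finset Polynomial Filter
open Pool.Agent.W23.DC
open Pool.Agent.Y882.PX
open Pool.Agent.Y882.SI

open Classical in
/-- the number of the `n` in `(N, N + h]` at which the value is rough -/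
noncomputable def rgh (G : ℤ[X]) (Y : ℕ) (ζ : ℝ) (h N : ℕ) : ℝ :=
  ((Icc 1 h).filter (fun j : ℕ => ∀ p ∈ PZ Y ζ, ¬ p ∣ (G.eval ((N + j : ℕ) : ℤ)).natAbs)).card

/-- the sieve density -/
noncomputable def vv (G : ℤ[X]) (Y : ℕ) (ζ : ℝ) : ℝ := ∏ p ∈ PZ Y ζ, (1 - (ro G 0 p : ℝ) / p)

open Classical in
/-- the sums of weights -/
theorem wsum (G : ℤ[X]) (P : Finset ℕ) (hP : ∀ p ∈ P, p.Prime) (c : Finset ℕ → ℝ) (h N : ℕ) :
    ∑ j ∈ Icc 1 h, VV P c (fun p => if p ∣ (G.eval ((N + j : ℕ) : ℤ)).natAbs then 1 else 0) =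
      h * VV P c (fun p => (ro G 0 p : ℝ) / p) + ∑ T ∈ P.powerset, c T * ri G (∏ p ∈ T, p) h N := by
  unfold VV
  rw [mul_sum, ← sum_add_distrib, sum_comm]
  apply sum_congr rfl
  intro T hT
  rw [mem_powerset] at hT
  have hTp : ∀ p ∈ T, p.Prime := fun p hp => hP p (hT hp)
  have h1 : ∑ j ∈ Icc 1 h, c T * ∏ p ∈ T,
      (if p ∣ (G.eval ((N + j : ℕ) : ℤ)).natAbs then (1 : ℝ) else 0) = c T * (ci G (∏ p ∈ T, p) h N : ℝ) := by
    rw [← mul_sum]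
    congr 1
    unfold ci
    rw [card_filter]
    push_cast
    apply sum_congr rfl
    intro j _
    rw [Pool.Agent.Y882.PX.prod_ind T hTp]
    have h2 : ((∏ p ∈ T, p : ℕ) : ℤ) ∣ G.eval ((N : ℤ) + (j : ℤ)) ↔
        (∏ p ∈ T, p) ∣ (G.eval ((N : ℤ) + (j : ℤ))).natAbs := Int.natCast_dvd
    push_cast at h2
    by_cases h3 : (∏ p ∈ T, p) ∣ (G.eval ((N : ℤ) + (j : ℤ))).natAbs
    · rw [if_pos h3, if_pos (h2.2 h3)]
    · rw [if_neg h3, if_neg (fun h => h3 (h2.1 h))]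
  rw [h1]
  unfold ri
  rw [ro_prod G 0 T hTp]
  push_cast
  rw [prod_div_distrib]
  ring

open Classical in
/-- **The linear sieve in short intervals.** -/
theorem engJR (K : ℕ) (A0 : ℝ) (F f : ℝ → ℝ) (hSF : SF A0 F f) (τ ζ δ ε : ℝ) (hζ : 0 < ζ)
    (h1 : ζ ≤ τ) (hτ : τ < 1) (hδ : 0 < δ) (hε : 0 < ε) :
    ∃ ε₁ η : ℝ, 0 < ε₁ ∧ ε₁ ≤ ζ ∧ 0 < η ∧ ∃ Y0 : ℕ, ∀ Y : ℕ, Y0 ≤ Y →
      ∀ (G : ℤ[X]) (X h : ℕ), (∀ p : ℕ, p.Prime → ro G 0 p ≤ K) → 0 < h →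
        (Y : ℝ) ^ (-(ε / 32)) ≤ vv G Y ζ →
        Mer (pr Y ε₁ ζ) (tt Y) (fun p => (ro G 0 p : ℝ) / p) ε₁ ζ η →
        (((Icc 1 X).filter (fun N => ¬ ((f (τ / ζ) - δ) * (h * vv G Y ζ) ≤ rgh G Y ζ h N ∧
          rgh G Y ζ h N ≤ (F (τ / ζ) + δ) * (h * vv G Y ζ)))).card : ℝ) ≤
          (X + (Y : ℝ) ^ (2 * τ)) / h * (Y : ℝ) ^ ε := by
  obtain ⟨s, hs0, hs1, hs2⟩ : ∃ s : ℝ, 0 < s ∧ s ≤ ε / 8 ∧ s ≤ 1 - τ :=
    ⟨min (ε / 8) (1 - τ), lt_min (by linarith) (by linarith), min_le_left _ _, min_le_right _ _⟩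
  set τ' : ℝ := τ + s with hτ'
  have hττ' : τ < τ' := by linarith
  obtain ⟨ε₁, η, hε₁, hε₁ζ, hη, Y1, HC⟩ :=
    core5 K A0 F f hSF τ ζ τ' (δ / 2) hζ h1 hτ.le hττ' (by linarith)
  obtain ⟨Y2, HE⟩ := few_errI K τ' ε (by linarith) (by linarith) hε
  have ev1 : ∀ᶠ Y : ℕ in atTop, 5 * Real.log Y ≤ (Y : ℝ) ^ (ε / 64) := by
    have h1 := (isLittleO_log_rpow_atTop (show 0 < ε / 64 by linarith)).bound
      (show (0 : ℝ) < 1 / 5 by norm_num)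
    filter_upwards [tendsto_natCast_atTop_atTop.eventually h1, eventually_ge_atTop 1] with Y hY hY1
    have hY1r : (1 : ℝ) ≤ Y := by exact_mod_cast hY1
    rw [Real.norm_of_nonneg (Real.log_nonneg hY1r), Real.norm_of_nonneg (by positivity)] at hY
    linarith
  have ev2 : ∀ᶠ Y : ℕ in atTop, 2 / δ ≤ (Y : ℝ) ^ (ε / 32) :=
    ((tendsto_rpow_atTop (by linarith)).comp tendsto_natCast_atTop_atTop).eventually_ge_atTop _
  have ev3 : ∀ᶠ Y : ℕ in atTop, 2 ≤ (Y : ℝ) ^ (ε / 4) :=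
    ((tendsto_rpow_atTop (by linarith)).comp tendsto_natCast_atTop_atTop).eventually_ge_atTop _
  obtain ⟨Y3, hY3⟩ := eventually_atTop.1 (ev1.and (ev2.and (ev3.and (eventually_ge_atTop 3))))
  refine ⟨ε₁, η, hε₁, hε₁ζ, hη, max Y1 (max Y2 Y3), ?_⟩
  intro Y hY G X h hK hh hV hmer
  have hYY1 : Y1 ≤ Y := (le_max_left _ _).trans hY
  have hYY2 : Y2 ≤ Y := ((le_max_left _ _).trans (le_max_right _ _)).trans hY
  obtain ⟨e1, e2, e2', e3⟩ := hY3 Y (((le_max_right _ _).trans (le_max_right _ _)).trans hY)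
  have hYr : (3 : ℝ) ≤ Y := by exact_mod_cast e3
  have hY0 : (0 : ℝ) < Y := by linarith
  have hY1r : (1 : ℝ) ≤ Y := by linarith
  have hh0 : (0 : ℝ) < h := by exact_mod_cast hh
  obtain ⟨wU, wL, c1, c2, c3, c4⟩ := HC Y hYY1
  have hPZ : ∀ p ∈ PZ Y ζ, p.Prime := by
    intro p hp
    unfold PZ at hp
    rw [mem_filter] at hp
    exact hp.2.1
  have hA1 := HE Y hYY2 G (PZ Y ζ) wU X h hPZ (fun p hp => hK p (hPZ p hp))
    (fun T => (c1 T).1.trans e1) (fun T hT h0 => c2 T hT (Or.inl h0)) hh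
  have hA2 := HE Y hYY2 G (PZ Y ζ) wL X h hPZ (fun p hp => hK p (hPZ p hp))
    (fun T => (c1 T).2.trans e1) (fun T hT h0 => c2 T hT (Or.inr h0)) hh
  set A1 := (Icc 1 X).filter (fun N => (h : ℝ) * (Y : ℝ) ^ (-(ε / 16)) <
        |∑ T ∈ (PZ Y ζ).powerset, wU T * ri G (∏ p ∈ T, p) h N|) with hA1d
  set A2 := (Icc 1 X).filter (fun N => (h : ℝ) * (Y : ℝ) ^ (-(ε / 16)) <
        |∑ T ∈ (PZ Y ζ).powerset, wL T * ri G (∏ p ∈ T, p) h N|) with hA2d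
  obtain ⟨m1, m2⟩ := c4 (fun p => (ro G 0 p : ℝ) / p) (fun p _ => by positivity) (by
    intro p hp
    have hp0 : (0 : ℝ) < p := by exact_mod_cast (hPZ p hp).pos
    have h1 : (ro G 0 p : ℝ) ≤ p := by exact_mod_cast ro_le_self G 0 p
    show (ro G 0 p : ℝ) / p ≤ 1
    rw [div_le_one hp0]
    exact h1) (by
    intro p hp _
    have hp0 : (2 : ℝ) ≤ p := by exact_mod_cast (hPZ p hp).two_le
    have h1 : (ro G 0 p : ℝ) ≤ K := by exact_mod_cast hK p (hPZ p hp)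
    show (ro G 0 p : ℝ) / p ≤ K / ((p : ℝ) - 1)
    apply div_le_div₀ (Nat.cast_nonneg _) h1 (by linarith) (by linarith)) hmer
  have m1' : (f (τ / ζ) - δ / 2) * vv G Y ζ ≤ VV (PZ Y ζ) wL (fun p => (ro G 0 p : ℝ) / p) := m1
  have m2' : VV (PZ Y ζ) wU (fun p => (ro G 0 p : ℝ) / p) ≤ (F (τ / ζ) + δ / 2) * vv G Y ζ := m2
  have herr : (h : ℝ) * (Y : ℝ) ^ (-(ε / 16)) ≤ δ / 2 * (h * vv G Y ζ) := by
    have h2 : (Y : ℝ) ^ (-(ε / 16)) = (Y : ℝ) ^ (-(ε / 32)) * (Y : ℝ) ^ (-(ε / 32)) := by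
      rw [← Real.rpow_add hY0]
      congr 1
      ring
    have h3 : (Y : ℝ) ^ (-(ε / 32)) ≤ δ / 2 := by
      rw [Real.rpow_neg hY0.le, inv_le_comm₀ (by positivity) (by positivity)]
      rw [inv_div]
      exact e2
    rw [h2]
    calc (h : ℝ) * ((Y : ℝ) ^ (-(ε / 32)) * (Y : ℝ) ^ (-(ε / 32))) ≤
        h * (δ / 2 * vv G Y ζ) := by
          apply mul_le_mul_of_nonneg_left _ hh0.le
          exact mul_le_mul h3 hV (by positivity) (by positivity)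
      _ = _ := by ring
  have hsub : (Icc 1 X).filter (fun N => ¬ ((f (τ / ζ) - δ) * (h * vv G Y ζ) ≤ rgh G Y ζ h N ∧
          rgh G Y ζ h N ≤ (F (τ / ζ) + δ) * (h * vv G Y ζ))) ⊆ A1 ∪ A2 := by
    intro N hN
    rw [mem_filter] at hN
    rw [mem_union]
    by_contra hcon
    push Not at hcon
    obtain ⟨hc1, hc2⟩ := hcon
    apply hN.2
    have g1 : |∑ T ∈ (PZ Y ζ).powerset, wU T * ri G (∏ p ∈ T, p) h N| ≤
        (h : ℝ) * (Y : ℝ) ^ (-(ε / 16)) := by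
      by_contra h'
      exact hc1 (by rw [hA1d, mem_filter]; exact ⟨hN.1, not_le.1 h'⟩)
    have g2 : |∑ T ∈ (PZ Y ζ).powerset, wL T * ri G (∏ p ∈ T, p) h N| ≤
        (h : ℝ) * (Y : ℝ) ^ (-(ε / 16)) := by
      by_contra h'
      exact hc2 (by rw [hA2d, mem_filter]; exact ⟨hN.1, not_le.1 h'⟩)
    have hr : rgh G Y ζ h N = ∑ j ∈ Icc 1 h,
        (if ∀ p ∈ PZ Y ζ, ¬ p ∣ (G.eval ((N + j : ℕ) : ℤ)).natAbs then (1 : ℝ) else 0) := by
      unfold rgh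
      rw [card_filter]
      push_cast
      rfl
    constructor
    · have g3 : ∑ j ∈ Icc 1 h, VV (PZ Y ζ) wL
          (fun p => if p ∣ (G.eval ((N + j : ℕ) : ℤ)).natAbs then 1 else 0) ≤ rgh G Y ζ h N := by
        rw [hr]
        exact sum_le_sum fun j _ => (c3 _).1
      rw [wsum G (PZ Y ζ) hPZ wL h N] at g3
      have g4 := mul_le_mul_of_nonneg_left m1' hh0.le
      have g5 := neg_le_of_abs_le g2
      have g6 : (f (τ / ζ) - δ) * (h * vv G Y ζ) =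
          h * ((f (τ / ζ) - δ / 2) * vv G Y ζ) - δ / 2 * (h * vv G Y ζ) := by ring
      rw [g6]
      linarith
    · have g3 : rgh G Y ζ h N ≤ ∑ j ∈ Icc 1 h, VV (PZ Y ζ) wU
          (fun p => if p ∣ (G.eval ((N + j : ℕ) : ℤ)).natAbs then 1 else 0) := by
        rw [hr]
        exact sum_le_sum fun j _ => (c3 _).2
      rw [wsum G (PZ Y ζ) hPZ wU h N] at g3
      have g4 := mul_le_mul_of_nonneg_left m2' hh0.le
      have g5 := le_of_abs_le g1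
      have g6 : (F (τ / ζ) + δ) * (h * vv G Y ζ) =
          h * ((F (τ / ζ) + δ / 2) * vv G Y ζ) + δ / 2 * (h * vv G Y ζ) := by ring
      rw [g6]
      linarith
  calc (((Icc 1 X).filter (fun N => ¬ ((f (τ / ζ) - δ) * (h * vv G Y ζ) ≤ rgh G Y ζ h N ∧
          rgh G Y ζ h N ≤ (F (τ / ζ) + δ) * (h * vv G Y ζ)))).card : ℝ) ≤
      ((A1 ∪ A2).card : ℝ) := by exact_mod_cast card_le_card hsub
    _ ≤ A1.card + A2.card := by exact_mod_cast card_union_le _ _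
    _ ≤ 2 * ((X + (Y : ℝ) ^ (2 * τ')) / h * (Y : ℝ) ^ (ε / 2)) := by linarith
    _ ≤ (Y : ℝ) ^ (ε / 4) * (((X + (Y : ℝ) ^ (2 * τ)) * (Y : ℝ) ^ (ε / 4)) / h * (Y : ℝ) ^ (ε / 2)) := by
        apply mul_le_mul e2' _ (by positivity) (by positivity)
        apply mul_le_mul_of_nonneg_right _ (by positivity)
        apply div_le_div_of_nonneg_right _ hh0.le
        have h1 : (Y : ℝ) ^ (2 * τ') ≤ (Y : ℝ) ^ (2 * τ) * (Y : ℝ) ^ (ε / 4) := by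
          rw [← Real.rpow_add hY0]
          exact Real.rpow_le_rpow_of_exponent_le hY1r (by linarith)
        have h3 : (1 : ℝ) ≤ (Y : ℝ) ^ (ε / 4) := Real.one_le_rpow hY1r (by linarith)
        have h4 : (0 : ℝ) ≤ X := Nat.cast_nonneg _
        nlinarith
    _ = (X + (Y : ℝ) ^ (2 * τ)) / h * ((Y : ℝ) ^ (ε / 4) * (Y : ℝ) ^ (ε / 4) * (Y : ℝ) ^ (ε / 2)) := by ring
    _ = _ := by
        rw [← Real.rpow_add hY0, ← Real.rpow_add hY0]
        congr 2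
        ring

end Pool.Agent.Y882.JR
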