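import Pool.Agent.Y882.JR.Lim

/-! Upper bound for the number of primes `n ^ 2 + a` in short intervals. -/

set_option autoImplicit false

namespace Pool.Agent.Y882.JR

open Filter Finset
open Pool.Agent.W23.DC
open Pool.Agent.Y882.PX
open Pool.Agent.Y882.SI

/-- the number of the `n` in `(N, N + H]` such that `|n ^ 2 + a|` is prime -/
def prs (a : ℤ) (N H : ℕ) : ℕ :=
  ((Finset.Ioc N (N + H)).filter (fun n : ℕ => ((n : ℤ) ^ 2 + a).natAbs.Prime)).card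

theorem prs_le (a : ℤ) (z : ℝ) (N H : ℕ) (hN : z + |(a : ℝ)| ≤ (N : ℝ) ^ 2) :
    prs a N H ≤ rough a z N H := by
  classical
  unfold prs rough
  apply card_le_card
  intro n hn
  rw [mem_filter, mem_Ioc] at hn
  rw [mem_filter, mem_Ioc]
  refine ⟨hn.1, ?_⟩
  intro p hp hd
  have h1 : p ∣ ((n : ℤ) ^ 2 + a).natAbs := Int.natCast_dvd.1 hd
  have h2 : p = ((n : ℤ) ^ 2 + a).natAbs := (Nat.prime_dvd_prime_iff_eq hp hn.2).1 h1
  have h3 : (p : ℝ) = |(n : ℝ) ^ 2 + a| := by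
    have : ((p : ℤ) : ℝ) = ((|(n : ℤ) ^ 2 + a| : ℤ) : ℝ) := by
      rw [h2, Int.natCast_natAbs]
    push_cast at this
    exact this
  rw [h3]
  have h4 : (N : ℝ) ^ 2 ≤ (n : ℝ) ^ 2 := by
    have : (N : ℝ) ≤ n := by exact_mod_cast hn.1.1.le
    gcongr
  have h5 := neg_abs_le (a : ℝ)
  have h6 := le_abs_self ((n : ℝ) ^ 2 + a)
  linarith

open Classical in
theorem prime_upper {A0 : ℝ} {F f : ℝ → ℝ} (hSF : SF A0 F f)
    (hA : A0 = 2 * Real.exp Real.eulerMascheroniConstant) (a : ℤ) (ha : ¬ IsSquare (-a)) (C : ℝ)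
    (hC0 : 0 < C)
    (hC : Tendsto (fun z : ℝ => dens a z * Real.log z) atTop
      (nhds (C * Real.exp (-Real.eulerMascheroniConstant)))) (τ h δ ε : ℝ) (hτ1 : 1 / 2 ≤ τ)
    (hτ : τ < 1) (hh : 0 < h) (hhτ : h ≤ τ) (hδ : 0 < δ) (hε : 0 < ε) :
    ∀ᶠ X : ℕ in atTop, (((Icc 1 X).filter (fun N =>
      ¬ ((prs a N ⌊(X : ℝ) ^ h⌋₊ : ℝ) ≤ (2 * C / τ + δ) * ((X : ℝ) ^ h / Real.log X)))).card : ℝ) ≤
      (X : ℝ) ^ (2 * τ - h + ε) := by
  have hτ0 : 0 < τ := by linarith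
  have hA0 := hSF.pos
  set E : ℝ := Real.exp (-Real.eulerMascheroniConstant) with hE
  have hE0 : 0 < E := Real.exp_pos _
  have hAE : A0 * E = 2 := by
    rw [hA, hE, mul_assoc, ← Real.exp_add]
    simp
  have hF1 : F 1 = A0 := by
    rw [hSF.F3 1 le_rfl (by norm_num), div_one]
  -- the small parameter
  obtain ⟨θ, hθ0, hθ⟩ : ∃ θ : ℝ, 0 < θ ∧ (A0 + θ) * (C * E + θ) ≤ 2 * C + δ * τ := by
    have hcont : Tendsto (fun θ : ℝ => (A0 + θ) * (C * E + θ)) (nhdsWithin 0 (Set.Ioi 0))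
        (nhds ((A0 + 0) * (C * E + 0))) := by
      apply Tendsto.mono_left _ nhdsWithin_le_nhds
      exact (Continuous.tendsto (by fun_prop) 0)
    have h1 : (A0 + 0) * (C * E + 0) < 2 * C + δ * τ := by
      have : (A0 + 0) * (C * E + 0) = (A0 * E) * C := by ring
      rw [this, hAE]
      have : 0 < δ * τ := by positivity
      linarith
    have h2 := (hcont.eventually (gt_mem_nhds h1)).and self_mem_nhdsWithin
    obtain ⟨θ, h3, h4⟩ := h2.exists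
    exact ⟨θ, h4, h3.le⟩
  have ev1 := finJR A0 F f hSF a ha τ 1 h θ (ε / 2) hτ1 hτ le_rfl hh (by linarith) hθ0
    (by linarith)
  have ev2 : ∀ᶠ X : ℕ in atTop, dens a ((X : ℝ) ^ τ) * Real.log ((X : ℝ) ^ τ) ≤ C * E + θ := by
    have h1 : Tendsto (fun X : ℕ => ((X : ℝ) ^ τ)) atTop atTop :=
      (tendsto_rpow_atTop hτ0).comp tendsto_natCast_atTop_atTop
    have h2 := (hC.comp h1).eventually (ge_mem_nhds (show C * E < C * E + θ by linarith))
    exact h2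
  have ev3 : ∀ᶠ X : ℕ in atTop, |(a : ℝ)| ≤ (X : ℝ) ^ τ :=
    ((tendsto_rpow_atTop hτ0).comp tendsto_natCast_atTop_atTop).eventually_ge_atTop _
  have ev4 : ∀ᶠ X : ℕ in atTop, (3 : ℝ) ≤ (X : ℝ) ^ (ε / 2) :=
    ((tendsto_rpow_atTop (by linarith)).comp tendsto_natCast_atTop_atTop).eventually_ge_atTop _
  filter_upwards [ev1, ev2, ev3, ev4, eventually_ge_atTop 3] with X e1 e2 e3 e4 e5
  have hXr : (3 : ℝ) ≤ X := by exact_mod_cast e5
  have hX0 : (0 : ℝ) < X := by linarith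
  have hX1r : (1 : ℝ) ≤ X := by linarith
  have hlX : 0 < Real.log X := Real.log_pos (by linarith)
  rw [div_one, hF1] at e1
  rw [Real.log_rpow hX0] at e2
  set H : ℕ := ⌊(X : ℝ) ^ h⌋₊ with hH
  set W : ℕ := ⌊2 * (X : ℝ) ^ (τ / 2)⌋₊ with hW
  have hXh : (0 : ℝ) < (X : ℝ) ^ h := by positivity
  have hsub : (Icc 1 X).filter (fun N =>
      ¬ ((prs a N H : ℝ) ≤ (2 * C / τ + δ) * ((X : ℝ) ^ h / Real.log X))) ⊆
      (Icc 1 X).filter (fun N => ¬ ((f 1 - θ) * ((X : ℝ) ^ h * dens a ((X : ℝ) ^ τ)) ≤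
          (rough a ((X : ℝ) ^ τ) N H : ℝ) ∧
        (rough a ((X : ℝ) ^ τ) N H : ℝ) ≤ (A0 + θ) * ((X : ℝ) ^ h * dens a ((X : ℝ) ^ τ)))) ∪
      Icc 1 W := by
    intro N hN
    rw [mem_filter] at hN
    rw [mem_union]
    by_cases hNW : N ≤ W
    · right
      rw [mem_Icc] at hN ⊢
      exact ⟨hN.1.1, hNW⟩
    · left
      rw [mem_filter]
      refine ⟨hN.1, ?_⟩
      intro hcon
      apply hN.2
      push Not at hNW
      have h1 : 2 * (X : ℝ) ^ (τ / 2) < N := Nat.lt_of_floor_lt hNW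
      have h2 : (X : ℝ) ^ τ + |(a : ℝ)| ≤ (N : ℝ) ^ 2 := by
        have h3 : (2 * (X : ℝ) ^ (τ / 2)) ^ 2 ≤ (N : ℝ) ^ 2 := by gcongr
        have h4 : (2 * (X : ℝ) ^ (τ / 2)) ^ 2 = 4 * (X : ℝ) ^ τ := by
          rw [mul_pow, ← Real.rpow_natCast ((X : ℝ) ^ (τ / 2)) 2, ← Real.rpow_mul hX0.le]
          norm_num
        have h5 : 0 < (X : ℝ) ^ τ := by positivity
        linarith
      have h3 : (prs a N H : ℝ) ≤ rough a ((X : ℝ) ^ τ) N H := by
        exact_mod_cast prs_le a _ N H h2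
      refine h3.trans (hcon.2.trans ?_)
      have h4 : dens a ((X : ℝ) ^ τ) ≤ (C * E + θ) / (τ * Real.log X) := by
        rw [le_div_iff₀ (by positivity)]
        exact e2
      calc (A0 + θ) * ((X : ℝ) ^ h * dens a ((X : ℝ) ^ τ)) ≤
          (A0 + θ) * ((X : ℝ) ^ h * ((C * E + θ) / (τ * Real.log X))) := by gcongr
        _ = ((A0 + θ) * (C * E + θ)) / τ * ((X : ℝ) ^ h / Real.log X) := by
            field_simp
        _ ≤ (2 * C + δ * τ) / τ * ((X : ℝ) ^ h / Real.log X) := by gcongr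
        _ = _ := by
            field_simp
  have hcard := card_le_card hsub
  have h7 : (W : ℝ) ≤ 2 * (X : ℝ) ^ (2 * τ - h + ε / 2) := by
    refine (Nat.floor_le (by positivity)).trans ?_
    apply mul_le_mul_of_nonneg_left _ (by norm_num)
    apply Real.rpow_le_rpow_of_exponent_le hX1r
    linarith
  calc (((Icc 1 X).filter (fun N =>
      ¬ ((prs a N H : ℝ) ≤ (2 * C / τ + δ) * ((X : ℝ) ^ h / Real.log X)))).card : ℝ) ≤
      ((((Icc 1 X).filter (fun N => ¬ ((f 1 - θ) * ((X : ℝ) ^ h * dens a ((X : ℝ) ^ τ)) ≤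
          (rough a ((X : ℝ) ^ τ) N H : ℝ) ∧
        (rough a ((X : ℝ) ^ τ) N H : ℝ) ≤
          (A0 + θ) * ((X : ℝ) ^ h * dens a ((X : ℝ) ^ τ)))) ∪ Icc 1 W).card : ℕ) : ℝ) := by
        exact_mod_cast hcard
    _ ≤ (X : ℝ) ^ (2 * τ - h + ε / 2) + W := by
        refine (Nat.cast_le.2 (card_union_le _ _)).trans ?_
        push_cast
        rw [Nat.card_Icc, Nat.add_sub_cancel]
        linarith
    _ ≤ 3 * (X : ℝ) ^ (2 * τ - h + ε / 2) := by linarith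
    _ ≤ (X : ℝ) ^ (ε / 2) * (X : ℝ) ^ (2 * τ - h + ε / 2) := by gcongr
    _ = _ := by
        rw [← Real.rpow_add hX0]
        congr 1
        ring

end Pool.Agent.Y882.JR
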