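import Pool.Agent.Y882.JR.Fin
import Pool.Agent.Y882.SI.Quad

/-! Statements of two jobs for the linear sieve in short intervals. -/

set_option autoImplicit false

namespace Pool.Agent.Y882.JR

open Filter Finset
open Pool.Agent.W23.DC

/-- **JR-BUCH** the limit of a function satisfying the equation of Buchstab. -/
def S_BUCH : Prop :=
  ∀ (P : ℝ → ℝ) (ℓ : ℝ), ContinuousOn P (Set.Ici 1) →
    (∀ s : ℝ, 1 ≤ s → s ≤ 2 → s * P s = 1) →
    (∀ s : ℝ, 2 ≤ s → s * P s = 1 + ∫ x in (2 : ℝ)..s, P (x - 1)) →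
    Tendsto P atTop (nhds ℓ) → ℓ = Real.exp (-Real.eulerMascheroniConstant)

/-- **JR-DENS** the sieve density of `n ^ 2 + a`. -/
def S_DENS : Prop :=
  ∀ a : ℤ, ¬ IsSquare (-a) → ∃ C : ℝ, 0 < C ∧
    Tendsto (fun N : ℕ => dens a N / ∏ p ∈ (Finset.range N).filter Nat.Prime, (1 - 1 / (p : ℝ)))
      atTop (nhds C) ∧
    Tendsto (fun z : ℝ => dens a z * Real.log z) atTop
      (nhds (C * Real.exp (-Real.eulerMascheroniConstant)))

end Pool.Agent.Y882.JR
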